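import Pool.Agent.U142.FE7

set_option autoImplicit false

/-!
# The Fatou components of `f₀` which contain integers

Let `U n` be the Fatou component of the entire `3x+1` function `f₀` which contains the integer `n`, and
`V n = ∑ ε_k / 2^(k+1)`, where `ε_k` is the parity of `T^k n`. We show:

* `-1` and `-2` lie in the same component, and there is no other pair of integers in one component (for
  the other pairs this is known);
* all `U n` are bounded and lie in the strip of width two about `n` (in `-3 < Re z < -1/2` if `n` is `-1` or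
  `-2`), and they are asymptotically round with radius `(8/π²) 3^(-V n) / |n|`;
* for every completely invariant set `S` of integers, for instance the integers in wandering domains,
  the number of the `n ∈ S` for which `U n` has diameter at least `ε` is asymptotically
  `(32 / (3 π² log 3)) δ / ε`, where `δ` is the density of `S`.

Proof. `f₀` maps the points of the vertical lines through the odd (even) integers `k` to the outside
(inside) of the vertical line through `f₀ k`, and the line `Re z = -1/2` to the right; pulling back a path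
which has come near the orbit of `n` gives the strips. A point of `U n` with a large imaginary part would
have an orbit which leaves every horizontal strip, although the orbits in `U n` stay near the orbit of
`n`. The comparison of `f₀` with its Taylor polynomial then gives a uniform bound `O(1/|n|)` for the size,
and a recursion for the ratio of the outer radius to the limiting radius. The real segment
`[-2, -3/4]` is mapped into itself, with `|f₀ x + 1| ≤ (9/10) |x + 1|`, so it lies in the basin of `-1`. The
density of the slices in which `V n` is almost constant is known from the starting library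
(equidistribution of completely invariant sets in residue classes).
-/

namespace Pool.Agent.Results.MP_071ec9_an.ComponentsOfIntegers

open Filter Topology Metric Set
open Pool.Agent.H384R2.Fatou

/-- The entire function of Letherman, Schleicher and Wood; `f₀ n = T n` for every integer `n`. -/
noncomputable def f₀ (z : ℂ) : ℂ :=
  z / 2 + (z + 1 / 2) * ((1 - Complex.cos (Real.pi * z)) / 2) +
    1 / Real.pi * (1 / 2 - Complex.cos (Real.pi * z)) * Complex.sin (Real.pi * z)

/-- The `3x+1` function. -/
def T (n : ℤ) : ℤ := if n % 2 = 0 then n / 2 else (3 * n + 1) / 2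

/-- The Fatou component of `f₀` which contains the integer `n`. -/
def U (n : ℤ) : Set ℂ := FatouComponent f₀ (n : ℂ)

/-- The sum of `ε_k / 2^(k+1)`, `ε_k = 0` if `T^k n` is even and `1` if it is odd. -/
noncomputable def V (n : ℤ) : ℝ := ∑' k : ℕ, (if T^[k] n % 2 = 0 then 0 else 1) / 2 ^ (k + 1)

/-- The limiting radius `(8/π²) 3^(-V n) / |n|`. -/
noncomputable def radius (n : ℤ) : ℝ := 8 / Real.pi ^ 2 * 3 ^ (-V n) / |(n : ℝ)|

/-- The integers whose Fatou component is a wandering domain of `f₀`. -/
def WanderingIntegers : Set ℤ := {n | IsWanderingDomain f₀ (U n)}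

/-- Among the integers of sign `s` the set `S` has natural density `δ`. -/
def HasDensity (s : ℤ) (S : Set ℤ) (δ : ℝ) : Prop :=
  Tendsto (fun N : ℕ => ({n : ℤ | 0 < s * n ∧ s * n ≤ N ∧ n ∈ S}.ncard : ℝ) / N) atTop (𝓝 δ)

open Pool.Agent.U142.FE
open Pool.Agent.R105.WR (D D_pos W_ncard HD dens)

theorem wandering_iff (n : ℤ) : n ∈ WanderingIntegers ↔ Pool.Agent.H723R2.LSW.Wild n :=
  Pool.Agent.H723R2.LSW.wandering_iff n

theorem wandering_inv (n : ℤ) : n ∈ WanderingIntegers ↔ T n ∈ WanderingIntegers := by
  rw [wandering_iff, wandering_iff]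
  constructor
  · intro h
    exact Pool.Agent.H723R2.LSW.wild_iter h 1
  · intro h i j hij
    apply h i j
    show (Pool.Agent.H723R2.LSW.T)^[i] (Pool.Agent.H723R2.LSW.T n) =
      (Pool.Agent.H723R2.LSW.T)^[j] (Pool.Agent.H723R2.LSW.T n)
    rw [← Function.iterate_succ_apply, ← Function.iterate_succ_apply,
      Function.iterate_succ_apply', Function.iterate_succ_apply', hij]

/-- (A) Two different integers lie in the same Fatou component of `f₀` if and only if they are `-1` and
`-2`.
(B) There is `K` such that for every integer `n` the Fatou component `U n` is bounded, `|Re z - n| < 1` for all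
`z ∈ U n` if `n` is not `-1` or `-2`, `-3 < Re z < -1/2` if `n` is `-1` or `-2`, and
`exp (π |Im z|) < 3000 (|n| + 3)`; moreover, if `n ≠ 0`,
* `U n` contains the disc about `n` of radius `(1 - K (1 + log |n|) / |n|) r` and is contained in the closed
  disc of radius `(1 + K (1 + log |n|) / |n|) r`, where `r = radius n = (8/π²) 3^(-V n) / |n|`;
* for some `ρ > 0` it contains the disc of radius `(1 - K / |n|) ρ` and is contained in that of radius
  `(1 + K / |n|) ρ`.
(C) The set of the integers in wandering domains is completely invariant. Let `s = 1` or `s = -1` and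
let `S` be a completely invariant set of integers. It has a natural density `δ` among the integers of
sign `s`, `δ = 0` only if it contains no integer of sign `s`, and for `M` odd and every `a` the number of the
`n ∈ S` of sign `s` with `n ≡ a` modulo `M` and `diam (U n) ≥ ε` is asymptotically
`(32 / (3 π² log 3)) (δ / M) / ε` as `ε → 0`. -/
theorem result :
    (∀ m n : ℤ, m ≠ n → (U m = U n ↔ (m = -1 ∧ n = -2) ∨ (m = -2 ∧ n = -1))) ∧
    (∃ K : ℝ, ∀ n : ℤ,
      Bornology.IsBounded (U n) ∧
      (∀ z ∈ U n, (n ≠ -1 → n ≠ -2 → |z.re - n| < 1) ∧ (n = -1 ∨ n = -2 → -3 < z.re ∧ z.re < -(1 / 2)) ∧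
        Real.exp (Real.pi * |z.im|) < 3000 * (|(n : ℝ)| + 3)) ∧
      (n ≠ 0 →
        ball (n : ℂ) ((1 - K * (1 + Real.log |(n : ℝ)|) / |(n : ℝ)|) * radius n) ⊆ U n ∧
        U n ⊆ closedBall (n : ℂ) ((1 + K * (1 + Real.log |(n : ℝ)|) / |(n : ℝ)|) * radius n) ∧
        ∃ ρ : ℝ, 0 < ρ ∧ ball (n : ℂ) ((1 - K / |(n : ℝ)|) * ρ) ⊆ U n ∧
          U n ⊆ closedBall (n : ℂ) ((1 + K / |(n : ℝ)|) * ρ))) ∧
    (∀ n : ℤ, n ∈ WanderingIntegers ↔ T n ∈ WanderingIntegers) ∧
    ∀ (s : ℤ) (S : Set ℤ), (s = 1 ∨ s = -1) → (∀ n : ℤ, n ∈ S ↔ T n ∈ S) →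
      ∃ δ : ℝ, HasDensity s S δ ∧ (δ = 0 ↔ ∀ n : ℤ, 0 < s * n → n ∉ S) ∧
        ∀ (M : ℕ) (a : ℤ), Odd M →
          Tendsto (fun ε : ℝ => ε * ({n : ℤ | 0 < s * n ∧ n ∈ S ∧ n ≡ a [ZMOD M] ∧ ε ≤ diam (U n)}.ncard : ℝ))
            (𝓝[>] 0) (𝓝 (32 / (3 * Real.pi ^ 2 * Real.log 3) * (δ / M))) := by
  refine ⟨fun m n hmn => same_iff hmn, ?_, wandering_inv, fun s S hs hS => ?_⟩
  · obtain ⟨K1, h1, hK1⟩ := radii
    obtain ⟨K2, h2, hK2⟩ := Pool.Agent.R105.WR.main_rho
    obtain ⟨K3, h3, hK3⟩ := outer_rho hN hL hT
    set L2 := K2 * Real.exp (K2 * 1) with hL2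
    set L3 := K3 * Real.exp (K3 * 1) with hL3
    have hL20 : 0 ≤ L2 := by positivity
    have hL30 : 0 ≤ L3 := by positivity
    refine ⟨K1 + L2 + L3, fun n => ⟨comp_bdd n, fun z hz => ⟨fun a1 a2 => ?_, fun a1 => ?_, vert hz⟩, fun hn => ?_⟩⟩
    · have h := near_all hz
      unfold Near at h
      rwa [if_neg (by tauto)] at h
    · have h := near_all hz
      unfold Near at h
      rwa [if_pos a1] at h
    have hn1 : 1 ≤ |(n : ℝ)| := by
      have : 1 ≤ |n| := Int.one_le_abs hn
      exact_mod_cast this
    have hn0 : 0 < |(n : ℝ)| := by linarith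
    have hD := D_pos n
    have hO := O_pos n
    have h3V : (0 : ℝ) < 3 ^ V n := Real.rpow_pos_of_pos (by norm_num) _
    have hVm : (3 : ℝ) ^ (-V n) = (3 ^ V n)⁻¹ := Real.rpow_neg (by norm_num) _
    have hp0 : 0 < Real.pi ^ 2 := by positivity
    have hrad : 0 < radius n := by
      unfold radius
      rw [hVm]
      positivity
    have hradV : Real.pi ^ 2 / 8 * 3 ^ V n * |(n : ℝ)| * radius n = 1 := by
      unfold radius
      rw [hVm]
      field_simp
    obtain ⟨b1, b2⟩ := hK1 n hn
    obtain ⟨hy1, hy0⟩ := y_le_one hn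
    set y := (1 + Real.log |(n : ℝ)|) / |(n : ℝ)| with hy
    have hVV : Pool.Agent.R105.WR.V n = V n := rfl
    rw [hVV] at b1 b2
    set q := Real.pi ^ 2 / 8 * 3 ^ V n * |(n : ℝ)| with hq
    have hq0 : 0 < q := by positivity
    have hKy : (K1 + L2 + L3) * (1 + Real.log |(n : ℝ)|) / |(n : ℝ)| = (K1 + L2 + L3) * y := by
      rw [hy]; ring
    rw [hKy]
    have hle : K1 * y ≤ (K1 + L2 + L3) * y := by nlinarith
    refine ⟨?_, ?_, Pool.Agent.Y282.WD.rho n, (hT.2 n).1, ?_, ?_⟩
    · refine (ball_subset_ball ?_).trans (ball_D_comp n)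
      have e : (1 - (K1 + L2 + L3) * y) * radius n * q = 1 - (K1 + L2 + L3) * y := by
        calc (1 - (K1 + L2 + L3) * y) * radius n * q = (1 - (K1 + L2 + L3) * y) * (q * radius n) := by ring
          _ = _ := by rw [hradV, mul_one]
      have h4 := (abs_le.1 b1).1
      nlinarith
    · refine (comp_sub n).trans (closedBall_subset_closedBall ?_)
      have e : (1 + (K1 + L2 + L3) * y) * radius n * q = 1 + (K1 + L2 + L3) * y := by
        calc (1 + (K1 + L2 + L3) * y) * radius n * q = (1 + (K1 + L2 + L3) * y) * (q * radius n) := by ring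
          _ = _ := by rw [hradV, mul_one]
      have h4 := (abs_le.1 b2).2
      nlinarith
    · refine (ball_subset_ball ?_).trans (ball_D_comp n)
      have hρ := (hT.2 n).1
      have h4 := Pool.Agent.R105.WR.rel_of_log (x := D n / Pool.Agent.Y282.WD.rho n) (y := 1 / |(n : ℝ)|) (L := 1)
        (by positivity) h2 (by rw [mul_one_div]; exact hK2 n hn) (by rw [div_le_one hn0]; exact hn1)
      rw [← hL2] at h4
      have h5 := (abs_le.1 h4).1
      have h6 : 0 < 1 / |(n : ℝ)| := by positivity
      have h7 : 1 - (K1 + L2 + L3) / |(n : ℝ)| ≤ D n / Pool.Agent.Y282.WD.rho n := by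
        have e : (K1 + L2 + L3) / |(n : ℝ)| = (K1 + L2 + L3) * (1 / |(n : ℝ)|) := by ring
        rw [e]
        nlinarith
      rwa [le_div_iff₀ hρ] at h7
    · refine (comp_sub n).trans (closedBall_subset_closedBall ?_)
      have hρ := (hT.2 n).1
      have h4 := Pool.Agent.R105.WR.rel_of_log (x := O n / Pool.Agent.Y282.WD.rho n) (y := 1 / |(n : ℝ)|) (L := 1)
        (by positivity) h3 (by rw [mul_one_div]; exact hK3 n hn) (by rw [div_le_one hn0]; exact hn1)
      rw [← hL3] at h4
      have h5 := (abs_le.1 h4).2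
      have h6 : 0 < 1 / |(n : ℝ)| := by positivity
      have h7 : O n / Pool.Agent.Y282.WD.rho n ≤ 1 + (K1 + L2 + L3) / |(n : ℝ)| := by
        have e : (K1 + L2 + L3) / |(n : ℝ)| = (K1 + L2 + L3) * (1 / |(n : ℝ)|) := by ring
        rw [e]
        nlinarith
      rwa [div_le_iff₀ hρ] at h7
  · obtain ⟨δ, h0, hD, hQ⟩ := dens (A := S) hS hs
    have hδ0 : 0 ≤ δ := Pool.Agent.R105.WR.HD_nonneg hD
    refine ⟨δ, ?_, h0, fun M a hM => ?_⟩
    · refine Filter.Tendsto.congr (fun N => ?_) hD
      rw [W_ncard hs]
    · have hpi : 0 < Real.pi ^ 2 := by positivity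
      have h2 := count hs hδ0 hQ hM a (r := fun n => diam (U n)) (c := 16 / Real.pi ^ 2) (by positivity) (by
        intro η hη
        obtain ⟨N0, h⟩ := diam_asymp hη
        exact ⟨N0, fun n _ hN => h n hN⟩)
      have h3 := h2.comp tendsto_inv_nhdsGT_zero
      have e : 16 / Real.pi ^ 2 * (δ / M) * kap = 32 / (3 * Real.pi ^ 2 * Real.log 3) * (δ / M) := by
        unfold kap
        have := log3_pos
        field_simp
        ring
      rw [e] at h3
      refine h3.congr' ?_
      filter_upwards [self_mem_nhdsWithin] with ε hε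
      have hε' : 0 < ε := hε
      simp only [Function.comp_apply]
      rw [div_inv_eq_mul, mul_comm]
      congr 3
      ext n
      simp only [Set.mem_ofPred_eq]
      have e2 : 1 ≤ ε⁻¹ * diam (U n) ↔ ε ≤ diam (U n) := by
        rw [inv_mul_eq_div, one_le_div hε']
      rw [e2]
      tauto

end Pool.Agent.Results.MP_071ec9_an.ComponentsOfIntegers
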