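import Pool.Agent.U457.PS.Dom2

set_option autoImplicit false

/-!
# The Fatou components of `f₀` which contain integers: uniform lower bounds at all scales

Let `U n` be the Fatou component of the entire `3x+1` function `f₀` which contains the integer `n`. With
absolute constants `c`, `K`:

1. for every integer `a` not divisible by 3 and every `r ≤ diam (U a) / K` there are at least
   `c diam (U a) / r` integers `n` such that `U n` has diameter at least `r` and falls into `U a` after
   `t` steps, `6 log (diam (U a) / r) - K ≤ t ≤ 8 log (diam (U a) / r) + K`, the components through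
   which it passes before having diameters at most `K diam (U a)`;
2. for every completely invariant family the number of the members of diameter at least `r`, multiplied
   by `r`, is at least `c` times the corresponding product for any larger scale `ρ`; the same for
   families which are only backward invariant, if the integers divisible by 3 are omitted at scale `ρ`;
3. if one integer `a` lies in a wandering domain, then for every `r ≤ diam (U a)` at least
   `c diam (U a) / r` integers lie in wandering domains of diameter at least `r`.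

Proof. The components have diameters between `c / |n|` and `C / |n|` (from the logarithmic asymptotics of
their inner and outer radii), and the integers satisfy a Harnack inequality at all scales
(`Pool.Agent.U457.PS.harnack'`), which comes from a minorization of the first passages with control of
all the intermediate terms and of the time (`Pool.Agent.U457.PS.minor_z`).
-/

namespace Pool.Agent.Results.MP_071ec9_an.DomainsAtAllScales

open Metric Set
open Pool.Agent.H384R2.Fatou

/-- The entire function of Letherman, Schleicher and Wood; `f₀ n = T n` for every integer `n`. -/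
noncomputable def f₀ (z : ℂ) : ℂ :=
  z / 2 + (z + 1 / 2) * ((1 - Complex.cos (Real.pi * z)) / 2) +
    1 / Real.pi * (1 / 2 - Complex.cos (Real.pi * z)) * Complex.sin (Real.pi * z)

/-- The `3x+1` function. -/
def T (n : ℤ) : ℤ := if n % 2 = 0 then n / 2 else (3 * n + 1) / 2

/-- The Fatou component of `f₀` which contains the integer `n`. -/
def U (n : ℤ) : Set ℂ := FatouComponent f₀ (n : ℂ)

/-- For some `t` between `6 log (diam (U a) / r) - K` and `8 log (diam (U a) / r) + K` the set `U n` is
mapped into `U a` by `f₀^t`, and for every `j < t` it is mapped by `f₀^j` into some `U m` of diameter at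
most `K diam (U a)`. -/
def Falls (K r : ℝ) (n a : ℤ) : Prop :=
  ∃ t : ℕ, 6 * Real.log (diam (U a) / r) - K ≤ t ∧ (t : ℝ) ≤ 8 * Real.log (diam (U a) / r) + K ∧
    f₀^[t] '' U n ⊆ U a ∧ ∀ j < t, ∃ m : ℤ, f₀^[j] '' U n ⊆ U m ∧ diam (U m) ≤ K * diam (U a)

/-- The number of the nonzero integers `n` of `S` with `diam (U n) ≥ r`. -/
noncomputable def count (S : Set ℤ) (r : ℝ) : ℝ := ({n : ℤ | n ≠ 0 ∧ n ∈ S ∧ r ≤ diam (U n)}.ncard : ℝ)

/-- The integers whose Fatou component is a wandering domain of `f₀`. -/
def WanderingIntegers : Set ℤ := {n | IsWanderingDomain f₀ (U n)}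

theorem wandering_iff (n : ℤ) : n ∈ WanderingIntegers ↔ Pool.Agent.H723R2.LSW.Wild n :=
  Pool.Agent.H723R2.LSW.wandering_iff n

theorem wandering_inv (n : ℤ) : n ∈ WanderingIntegers ↔ T n ∈ WanderingIntegers := by
  rw [wandering_iff, wandering_iff]
  constructor
  · intro h
    exact Pool.Agent.H723R2.LSW.wild_iter h 1
  · intro h i j hij
    apply h i j
    show (Pool.Agent.H723R2.LSW.T)^[i] (Pool.Agent.H723R2.LSW.T n) =
      (Pool.Agent.H723R2.LSW.T)^[j] (Pool.Agent.H723R2.LSW.T n)
    rw [← Function.iterate_succ_apply, ← Function.iterate_succ_apply,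
      Function.iterate_succ_apply', Function.iterate_succ_apply', hij]

theorem zero_not_wandering : (0 : ℤ) ∉ WanderingIntegers := by
  rw [wandering_iff]
  intro h
  have := h 0 1 rfl
  omega

theorem result :
    ∃ c K : ℝ, 0 < c ∧ 1 ≤ K ∧
      (∀ (a : ℤ) (r : ℝ), ¬ (3 : ℤ) ∣ a → 0 < r → K * r ≤ diam (U a) →
        c * (diam (U a) / r) ≤ ({n : ℤ | n ≠ 0 ∧ r ≤ diam (U n) ∧ Falls K r n a}.ncard : ℝ)) ∧
      (∀ S : Set ℤ, (∀ n, n ∈ S ↔ T n ∈ S) → ∀ r ρ : ℝ, 0 < r → r ≤ ρ →
        c * (ρ * count S ρ) ≤ r * count S r) ∧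
      (∀ S : Set ℤ, (∀ n, T n ∈ S → n ∈ S) → ∀ r ρ : ℝ, 0 < r → r ≤ ρ →
        c * (ρ * count {n | n ∈ S ∧ ¬ (3 : ℤ) ∣ n} ρ) ≤ r * count S r) ∧
      (∀ a : ℤ, a ∈ WanderingIntegers → ∀ r : ℝ, 0 < r → r ≤ diam (U a) →
        c * (diam (U a) / r) ≤ count WanderingIntegers r) := by
  obtain ⟨c1, K, hc1, hK, h1⟩ := Pool.Agent.U457.PS.Dom.falls
  obtain ⟨c2, hc2, h2, h3⟩ := Pool.Agent.U457.PS.Dom.families
  have hcount : ∀ S r, 0 ≤ count S r := fun S r => Nat.cast_nonneg _
  have hA : ∀ S : Set ℤ, (∀ n, n ∈ S ↔ T n ∈ S) → ∀ r ρ : ℝ, 0 < r → r ≤ ρ →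
      min c1 c2 * (ρ * count S ρ) ≤ r * count S r := by
    intro S hS r ρ hr hrρ
    refine le_trans (mul_le_mul_of_nonneg_right (min_le_right _ _) ?_) (h2 S hS r ρ hr hrρ)
    exact mul_nonneg (hr.le.trans hrρ) (hcount _ _)
  refine ⟨min c1 c2, K, lt_min hc1 hc2, hK, ?_, hA, ?_, ?_⟩
  · intro a r ha hr hKr
    refine le_trans (mul_le_mul_of_nonneg_right (min_le_left _ _) ?_) (h1 a r ha hr hKr)
    exact div_nonneg diam_nonneg hr.le
  · intro S hS r ρ hr hrρ
    refine le_trans (mul_le_mul_of_nonneg_right (min_le_right _ _) ?_) (h3 S hS r ρ hr hrρ)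
    exact mul_nonneg (hr.le.trans hrρ) (hcount _ _)
  · intro a ha r hr hra
    have g := hA WanderingIntegers wandering_inv r (diam (U a)) hr hra
    have ha0 : a ≠ 0 := by
      rintro rfl
      exact zero_not_wandering ha
    have hδ0 : 0 < diam (U a) := lt_of_lt_of_le hr hra
    have h5 : 1 ≤ count WanderingIntegers (diam (U a)) := by
      obtain ⟨c, C, -, -, hsz⟩ := Pool.Agent.U457.PS.Dom.sizes
      have hf : {n : ℤ | n ≠ 0 ∧ n ∈ WanderingIntegers ∧ diam (U a) ≤ diam (U n)}.Finite :=
        (Pool.Agent.U457.PS.Dom.small_fin (fun n hn => (hsz n hn).2) hδ0).subset (fun n h => ⟨h.1, h.2.2⟩)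
      have hsub : ({a} : Set ℤ) ⊆ {n : ℤ | n ≠ 0 ∧ n ∈ WanderingIntegers ∧ diam (U a) ≤ diam (U n)} := by
        rintro n rfl
        exact ⟨ha0, ha, le_rfl⟩
      have := Set.ncard_le_ncard hsub hf
      rw [Set.ncard_singleton] at this
      unfold count
      exact_mod_cast this
    have hc : 0 < min c1 c2 := lt_min hc1 hc2
    rw [mul_div_assoc', div_le_iff₀ hr]
    have h6 : min c1 c2 * diam (U a) ≤ min c1 c2 * (diam (U a) * count WanderingIntegers (diam (U a))) := by
      apply mul_le_mul_of_nonneg_left _ hc.le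
      exact le_mul_of_one_le_right hδ0.le h5
    linarith

end Pool.Agent.Results.MP_071ec9_an.DomainsAtAllScales
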