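import Pool.Agent.Results.MP_071ec9_an.NeighboursInSemigroups
import Pool.Agent.U596.KS4

set_option autoImplicit false

/-!
# Wandering domains of the entire `3x+1` function near the products of exactly `k` primes

Let `k ≥ 2`. We consider the integers `n` with exactly `k` prime factors, all greater than a small power of
the size, and the Fatou components of `f₀` at the integers near `n`, and at the affine images
`2^e 3^i n + B`. They contain the orbit-merging classes with the same frequencies as all integers. In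
particular, if one positive integer is in a wandering domain, then `2^e 3^i n + B` is in a wandering
domain for a positive proportion of the products `n` of exactly `k` primes (for example `p q + 2`).

Three ingredients. (1) The bilinear estimate of `Pool.Agent.U596` for sums over products of primes of
functions which are constant on coalescing trajectories; it gives the frequencies in `E_k` itself. The
affine images are not reached by it: `2^e 3^i n + B` has no multiplicative structure. (2) A bound for the number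
of elements of `E_k` in any union of residue classes modulo `2^m`, up to `2^m = N^{1/4}`, which is
proportional to the number of classes, with a constant which does not depend on the lower bound
`N^θ` for the prime factors (`Pool.Agent.U596.TR.E_struct`). (3) The integers whose orbits do not
merge with the orbit of `2^e 3^i n + B` within `m` steps are in few residue classes modulo `2^m`.
-/

namespace Pool.Agent.Results.MP_071ec9_an.NeighboursExactlyKPrimes

open Filter Topology Finset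
open ArithmeticFunction (cardFactors cardFactors_zero)
open Pool.Agent.Results.MP_071ec9_an.WanderingInSemigroups
open Pool.Agent.Results.MP_071ec9_an.NeighboursInSemigroups (aff Together)

/-- The integers up to `N` with exactly `k` prime factors (with multiplicity), all of them greater
than `N ^ θ`. -/
def E (k : ℕ) (θ : ℝ) (N : ℕ) : Set ℕ :=
  {n | 1 ≤ n ∧ n ≤ N ∧ cardFactors n = k ∧ ∀ p : ℕ, p.Prime → p ∣ n → (N : ℝ) ^ θ < p}

/-- The integers congruent to `r` modulo `Q` all of whose prime factors are in `S`. -/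
def W (S : Set ℕ) (Q r : ℕ) : Set ℕ := {n | n % Q = r % Q ∧ ∀ p : ℕ, p.Prime → p ∣ n → p ∈ S}

/-- THE FREQUENCIES of the pairs `(A, l)`, `A` a set of integers, in the family `F`, at the integers
`s n`: for all `k ≥ 2`, `Q ≥ 1` and `ε > 0`, all small enough `θ > 0` and all `N ≥ N₀ (k, Q, ε, θ)`,
uniformly for all pairs `(A, l)` in `F`, all sets `S` of primes and all `r`: among the integers `n ≤ N`
with exactly `k` prime factors, all greater than `N ^ θ` and all in `S`, and `n ≡ r` modulo `Q`, the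
number of those with `s n ∈ A` is `l` times their number, up to `ε` times the number of all `n ≤ N` with
exactly `k` prime factors, all greater than `N ^ θ`. -/
def Frequencies (s : ℤ) (F : Set (Set ℤ × ℝ)) : Prop := ∀ k Q : ℕ, 2 ≤ k → 1 ≤ Q → ∀ ε : ℝ, 0 < ε →
  ∃ θ₀ : ℝ, 0 < θ₀ ∧ ∀ θ : ℝ, 0 < θ → θ ≤ θ₀ → ∃ N₀ : ℕ, ∀ N : ℕ, N₀ ≤ N →
    ∀ (S : Set ℕ) (r : ℕ), ∀ A ∈ F,
    |((E k θ N ∩ W S Q r ∩ {n | s * (n : ℤ) ∈ A.1}).ncard : ℝ) - A.2 * (E k θ N ∩ W S Q r).ncard| ≤
      ε * (E k θ N).ncard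

open Pool.Agent.H384R2.Fatou
open Pool.Agent.H723R2.LSW (T Mer Wild cast_iter)
open Pool.Agent.Y964.LW (Coal FV Bd dn_side)
open Pool.Agent.U596.KF (KFr Neg KFr_neg)
open Pool.Agent.Results.MP_071ec9_an.NeighboursInSemigroups (f₀_int together_iff visits_iff inv_aff coal_together)

theorem freq_of {s : ℤ} {F : Set (Set ℤ × ℝ)} {PP : Set ((ℕ → Prop) × ℝ)} (h : KFr PP)
    (hF : ∀ A ∈ F, ((fun n : ℕ => s * (n : ℤ) ∈ A.1), A.2) ∈ PP) : Frequencies s F := by
  intro k Q hk hQ ε hε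
  obtain ⟨θ0, h1, h2⟩ := h k Q hk hQ ε hε
  refine ⟨θ0, h1, fun θ a1 a2 => ?_⟩
  obtain ⟨N0, h3⟩ := h2 θ a1 a2
  refine ⟨N0, fun N hN S r A hA => ?_⟩
  have h4 := h3 N hN S r ((fun n : ℕ => s * (n : ℤ) ∈ A.1), A.2) (hF A hA)
  exact h4

theorem freq_one {s : ℤ} {A : Set ℤ} {l : ℝ} (h : KFr {((fun n : ℕ => s * (n : ℤ) ∈ A), l)}) :
    Frequencies s {(A, l)} :=
  freq_of h (fun A' hA' => by rw [Set.mem_singleton_iff] at hA' ⊢; rw [hA'])

theorem together_neg {s : ℤ} (hs : s = 1 ∨ s = -1) (e i : ℕ) (B : ℤ) :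
    Neg (fun n => ¬ Together e (s * n) (aff e i B (s * n))) := by
  refine (Pool.Agent.U596.KF.aff_mergeE hs e i B).mono fun n hn h => hn ?_
  rw [together_iff hs]
  exact h

/-- the laws of the first visits -/
theorem visits_KFr {s : ℤ} (hs : s = 1 ∨ s = -1) {a : ℤ} (ha : IsCycleRep s a) {d : ℝ}
    (h : HasDensity s {n | Mer n a} d) :
    (∀ (q : ℕ) (b : ℤ), 1 ≤ q → KFr {P | ∃ x : ℝ, P = ((fun n : ℕ => ∃ k : ℕ, FV a k (s * n) ∧
      (k : ℝ) ≤ bound x (s * n) ∧ (k : ℤ) ≡ b [ZMOD q]), d * WanderingInSemigroups.Phi x / q)}) ∧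
    ∀ η : ℝ, 0 < η → KFr {((fun n : ℕ => ∃ k : ℕ, FV a k (s * n) ∧
      |(k : ℝ) - 2 / Real.log (4 / 3) * Real.log n| ≤ η * Real.log n), d)} := by
  obtain ⟨ha0, ⟨p, hp, hpa'⟩, hmin'⟩ := ha
  have hpa : T^[p] a = a := cast_iter.1 hpa'
  have hmin : ∀ j : ℕ, s * a ≤ s * T^[j] a := fun j => hmin' j _ (cast_iter.2 rfl)
  have hodd : a % 2 = 1 := by
    by_contra hcon
    have h1 : a % 2 = 0 := by omega
    have h2 := hmin 1
    rw [Function.iterate_one] at h2
    have h3 : T a = a / 2 := by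
      show (if a % 2 = 0 then a / 2 else (3 * a + 1) / 2) = a / 2
      rw [if_pos h1]
    rw [h3] at h2
    rcases hs with rfl | rfl <;> omega
  have hF : ∀ y ∈ ({a} : Finset ℤ), y % 2 = 1 := fun y hy => by
    rw [Finset.mem_singleton] at hy; rw [hy]; exact hodd
  have hper : Function.IsPeriodicPt T p a := hpa
  have hB : Bd ({a} : Finset ℤ) (∑ i ∈ range p, (T^[i] a).natAbs) := by
    intro y hy i
    rw [Finset.mem_singleton] at hy
    rw [hy]
    show |T^[i] a| ≤ _
    rw [← hper.iterate_mod_apply i]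
    have h2 : (T^[i % p] a).natAbs ≤ ∑ i ∈ range p, (T^[i] a).natAbs :=
      Finset.single_le_sum (f := fun i => (T^[i] a).natAbs)
        (fun _ _ => Nat.zero_le _) (Finset.mem_range.2 (Nat.mod_lt _ hp))
    rw [Int.abs_eq_natAbs]
    exact_mod_cast h2
  have hreach : ∀ n : ℤ, Mer n a ↔ ∃ k, T^[k] n = a := by
    intro n
    constructor
    · rintro ⟨i, j, hij⟩
      have hcp : ∀ m, T^[p * m] a = a := by
        intro m
        rw [Function.iterate_mul]
        exact Function.iterate_fixed hpa m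
      refine ⟨p * j - j + i, ?_⟩
      have hle : j ≤ p * j := Nat.le_mul_of_pos_left j hp
      rw [Function.iterate_add_apply, hij, ← Function.iterate_add_apply,
        Nat.sub_add_cancel hle, hcp]
    · rintro ⟨k, hk⟩; exact ⟨k, 0, hk⟩
  have hE : Pool.Agent.H499R2.ND.Dn (fun n : ℕ => ∃ k : ℕ, Pool.Agent.W26.HN.E {a} k (s * n)) d := by
    refine Pool.Agent.H499R2.LT.Dn_iff (fun n _ => ?_) (dn_side hs h)
    show Mer (s * (n : ℤ)) a ↔ ∃ k : ℕ, Pool.Agent.W26.HN.E {a} k (s * n)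
    rw [hreach]
    symm
    constructor
    · rintro ⟨k, hk⟩; exact ⟨k, Finset.mem_singleton.1 hk.1⟩
    · rintro ⟨k, hk⟩
      obtain ⟨j, _, hj⟩ := Pool.Agent.W26.HN.exists_E (F := {a}) (x := s * (n : ℤ)) (k := k)
        (Finset.mem_singleton.2 hk)
      exact ⟨j, hj⟩
  have hV : ∀ (k : ℕ) (n : ℤ), Pool.Agent.W26.HN.E {a} k n ↔ FV a k n := by
    intro k n
    unfold Pool.Agent.W26.HN.E FV
    constructor
    · rintro ⟨h1, h2⟩
      exact ⟨Finset.mem_singleton.1 h1, fun i hi h3 => h2 i hi (Finset.mem_singleton.2 h3)⟩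
    · rintro ⟨h1, h2⟩
      exact ⟨Finset.mem_singleton.2 h1, fun i hi h3 => h2 i hi (Finset.mem_singleton.1 h3)⟩
  obtain ⟨h5, h6⟩ := Pool.Agent.U596.KF.entr_laws hs hF hB hE
  refine ⟨fun q b hq => ?_, fun η hη => ?_⟩
  · refine (h5 q b hq).mono ?_
    rintro P ⟨x, rfl⟩
    refine ⟨x, ?_⟩
    congr 1
    · funext n
      rw [eq_iff_iff]
      refine exists_congr fun k => ?_
      rw [hV]
      unfold bound
      rw [log_abs hs]
      exact Iff.rfl
    · unfold WanderingInSemigroups.Phi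
      rw [← Pool.Agent.H499R2.ND.phi_cdf]
      ring
  · refine (h6 η hη).mono ?_
    intro P hP
    rw [Set.mem_singleton_iff] at hP ⊢
    rw [hP]
    congr 1
    funext n
    rw [eq_iff_iff]
    refine exists_congr fun k => ?_
    rw [hV]

/-- WANDERING DOMAINS NEAR THE PRODUCTS OF EXACTLY `k` PRIMES. Let `s = 1` or `s = -1`; `w` is the density of
the integers of sign `s` in wandering domains of `f₀` (`w = 0` if and only if Q1 holds for the sign `s`)
and `β a > 0` the density of those whose orbits merge with the orbit of `a`.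
(1) AFFINE IMAGES. For all `e, i ≥ 0` and `B`, in the sense of `Frequencies` (along the products `n` of exactly
`k ≥ 2` primes `> N ^ θ`, from arbitrary sets of primes, in residue classes): the orbits of `s n` and
`2^e 3^i s n + B` merge, the second after `t + e` steps where the first is after `t` steps, `4^t ≤ n`, with
frequency `1`; for every set `S` of integers with `m ∈ S ↔ f₀ m ∈ S` and natural density `d` the
frequency of `2^e 3^i s n + B ∈ S` is `d`, uniformly in `S`; it is `w` for the wandering domains, and `β a`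
for the components attracted to the cycle of `a`; and for the least element `a` of a cycle, the
orbit of `2^e 3^i s n + B` is at `a` for the first time at a time `k + e` with `k ≡ b` modulo `q` and
`k ≤ bound x n` with frequency `β a Φ(x) / q`, uniformly in `x`, and with
`|k - 2 log n / log (4/3)| ≤ η log n` with frequency `β a`.
(2) NEIGHBOURHOODS. For `k ≥ 2` and `ε > 0` there is `ϑ > 0` such that for all small `θ` and all large `N`:
for every `b`, `|b| ≤ N^ϑ`, the orbits of `s n` and `s n + b` come together for all but at most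
`ε #E` of the `n` in `E = E k θ N`; and for every `L ≤ N^ϑ`, for all but at most `ε #E` of the `n` in
`E`, the orbits of all but at most `ε (2 L + 1)` of the integers at distance at most `L` from `s n`
come together with the orbit of `s n`.
(3) `#E ≥ c N / log N`. Q1 holds for the integers of sign `s` if and only if, for one (or every) `k ≥ 2`,
`e`, `i`, `B`, only finitely many of the integers `2^e 3^i s n + B`, `n` with exactly `k` prime factors,
are in wandering domains, and even if for infinitely many `N` at most `ψ(N) N / log N` of those with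
`n ≤ N` are, where `ψ → 0`. -/
theorem result (s : ℤ) (hs : s = 1 ∨ s = -1) : ∃ (w : ℝ) (β : ℤ → ℝ),
    (HasDensity s WanderingIntegers w ∧ (w = 0 ↔ ∀ n : ℤ, 0 < s * n → n ∉ WanderingIntegers) ∧
      (∀ a : ℤ, 0 < s * a → 0 < β a ∧
        HasDensity s {n | ∃ i j : ℕ, f₀^[i] (n : ℂ) = f₀^[j] (a : ℂ)} (β a))) ∧
    (∀ (e i : ℕ) (B : ℤ),
      Frequencies s {({n | Together e n (aff e i B n)}, 1)} ∧
      Frequencies s {A | ∃ (S : Set ℤ) (d : ℝ), (∀ n m : ℤ, f₀ (n : ℂ) = m → (n ∈ S ↔ m ∈ S)) ∧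
        HasDensity s S d ∧ A = ({n | aff e i B n ∈ S}, d)} ∧
      Frequencies s {({n | aff e i B n ∈ WanderingIntegers}, w)} ∧
      (∀ (a : ℤ) (p : ℕ), 0 < s * a → 0 < p → f₀^[p] (a : ℂ) = a →
        Frequencies s {({n | aff e i B n ∈ BasinIntegers a p}, β a)}) ∧
      (∀ a : ℤ, IsCycleRep s a →
        (∀ (q : ℕ) (b : ℤ), 1 ≤ q → Frequencies s {A | ∃ x : ℝ, A = ({n | ∃ k : ℕ,
          Visits a (k + e) (aff e i B n) ∧ (k : ℝ) ≤ bound x n ∧ (k : ℤ) ≡ b [ZMOD q]}, β a * Phi x / q)}) ∧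
        (∀ η : ℝ, 0 < η → Frequencies s {({n | ∃ k : ℕ, Visits a (k + e) (aff e i B n) ∧
          |(k : ℝ) - 2 / Real.log (4 / 3) * Real.log (|(n : ℝ)|)| ≤ η * Real.log |(n : ℝ)|}, β a)}))) ∧
    (∀ k : ℕ, 2 ≤ k →
      (∀ ε : ℝ, 0 < ε → ∃ ϑ θ₀ : ℝ, 0 < ϑ ∧ 0 < θ₀ ∧ ∀ θ : ℝ, 0 < θ → θ ≤ θ₀ →
        ∃ N₀ : ℕ, ∀ N : ℕ, N₀ ≤ N →
        (∀ b : ℤ, |(b : ℝ)| ≤ (N : ℝ) ^ ϑ →
          ((E k θ N ∩ {n | ¬ Together 0 (s * n) (s * n + b)}).ncard : ℝ) ≤ ε * (E k θ N).ncard) ∧
        ∀ L : ℕ, (L : ℝ) ≤ (N : ℝ) ^ ϑ →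
          ((E k θ N ∩ {n | ε * (2 * L + 1) <
            ({b : ℤ | (|b| ≤ L) ∧ ¬ Together 0 (s * n) (s * n + b)}.ncard : ℝ)}).ncard : ℝ) ≤
            ε * (E k θ N).ncard) ∧
      (∃ c : ℝ, 0 < c ∧ ∃ θ₀ : ℝ, 0 < θ₀ ∧ ∀ θ : ℝ, 0 < θ → θ ≤ θ₀ → ∃ N₀ : ℕ, ∀ N : ℕ, N₀ ≤ N →
        c * (N / Real.log N) ≤ (E k θ N).ncard) ∧
      ∀ (e i : ℕ) (B : ℤ),
      ((∀ n : ℤ, 0 < s * n → n ∉ WanderingIntegers) ↔
        ∀ᶠ n : ℕ in atTop, cardFactors n = k → aff e i B (s * n) ∉ WanderingIntegers) ∧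
      (∀ ψ : ℕ → ℝ, Tendsto ψ atTop (𝓝 0) → (∃ᶠ N : ℕ in atTop,
        ({n : ℕ | 1 ≤ n ∧ n ≤ N ∧ cardFactors n = k ∧ aff e i B (s * n) ∈ WanderingIntegers}.ncard : ℝ) ≤
          ψ N * (N / Real.log N)) → ∀ n : ℤ, 0 < s * n → n ∉ WanderingIntegers)) := by
  obtain ⟨w, β, hw, hw0, hmer, hbas, hsum⟩ := Pool.Agent.H723R2.LSW.main hs
  have hmerD : ∀ a : ℤ, 0 < s * a → HasDensity s {n | Mer n a} (β a) := by
    intro a ha
    rw [← merge_eq]
    exact (hmer a ha).2
  have hwT : ∀ n : ℤ, n ∈ WanderingIntegers ↔ T n ∈ WanderingIntegers := by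
    intro n
    show IsWanderingDomain Pool.Agent.H723R2.LSW.f₀ (FatouComponent Pool.Agent.H723R2.LSW.f₀ n) ↔
      IsWanderingDomain Pool.Agent.H723R2.LSW.f₀ (FatouComponent Pool.Agent.H723R2.LSW.f₀ ((T n : ℤ) : ℂ))
    rw [Pool.Agent.H723R2.LSW.wandering_iff, Pool.Agent.H723R2.LSW.wandering_iff]
    exact wild_T n
  have hInv : ∀ (e i : ℕ) (B : ℤ), Frequencies s {A | ∃ (S : Set ℤ) (d : ℝ), (∀ n : ℤ, n ∈ S ↔ T n ∈ S) ∧
        HasDensity s S d ∧ A = ({n | aff e i B n ∈ S}, d)} := by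
    intro e i B
    refine freq_of (PP := {P | ∃ (S : Set ℤ) (d : ℝ), (∀ n : ℤ, n ∈ S ↔ T n ∈ S) ∧ HasDensity s S d ∧
      P = ((fun n : ℕ => aff e i B (s * (n : ℤ)) ∈ S), d)})
      (KFr_neg (Pool.Agent.U596.KF.inv_side hs) (together_neg hs e i B) ?_) ?_
    · rintro P ⟨S, d, h1, h2, rfl⟩
      refine ⟨_, ⟨S, d, h1, h2, rfl⟩, rfl, fun n hn => ?_⟩
      rw [not_not] at hn
      exact (inv_aff hs h1 e i B n hn).symm
    · rintro A ⟨S, d, h1, h2, rfl⟩
      exact ⟨S, d, h1, h2, rfl⟩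
  have hone : ∀ (e i : ℕ) (B : ℤ) (S : Set ℤ) (d : ℝ), (∀ n : ℤ, n ∈ S ↔ T n ∈ S) → HasDensity s S d →
      Frequencies s {({n | aff e i B n ∈ S}, d)} := by
    intro e i B S d h1 h2 k Q hk hQ ε hε
    obtain ⟨θ0, a1, a2⟩ := hInv e i B k Q hk hQ ε hε
    refine ⟨θ0, a1, fun θ b1 b2 => ?_⟩
    obtain ⟨N0, h3⟩ := a2 θ b1 b2
    refine ⟨N0, fun N hN R r A hA => h3 N hN R r A ?_⟩
    rw [Set.mem_singleton_iff] at hA
    exact ⟨S, d, h1, h2, hA⟩
  have hcrit : ∀ k : ℕ, 2 ≤ k → ∀ (e i : ℕ) (B : ℤ), ∀ ψ : ℕ → ℝ, Tendsto ψ atTop (𝓝 0) → (∃ᶠ N : ℕ in atTop,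
        ({n : ℕ | 1 ≤ n ∧ n ≤ N ∧ cardFactors n = k ∧ aff e i B (s * n) ∈ WanderingIntegers}.ncard : ℝ) ≤
          ψ N * (N / Real.log N)) → ∀ n : ℤ, 0 < s * n → n ∉ WanderingIntegers := by
    intro k hk e i B ψ hψ hfr
    refine hw0.1 ?_
    have hw1 : 0 ≤ w := ge_of_tendsto' hw fun N => by positivity
    by_contra hne
    have hwp : 0 < w := lt_of_le_of_ne hw1 (Ne.symm hne)
    obtain ⟨c, hc, θ0, hθ0, hlow⟩ := Pool.Agent.U596.KF.E_low hk
    obtain ⟨θ1, hθ1, hfreq⟩ := hone e i B _ _ hwT hw k 1 hk le_rfl (w / 2) (by positivity)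
    obtain ⟨N0, hN0⟩ := hlow (min θ0 θ1) (lt_min hθ0 hθ1) (min_le_left _ _)
    obtain ⟨N1, hN1⟩ := hfreq (min θ0 θ1) (lt_min hθ0 hθ1) (min_le_right _ _)
    generalize min θ0 θ1 = θ at hN0 hN1
    have hev : ∀ᶠ N : ℕ in atTop, (N0 ≤ N ∧ N1 ≤ N) ∧ 3 ≤ N ∧ ψ N < w / 2 * c :=
      ((eventually_ge_atTop N0).and (eventually_ge_atTop N1)).and ((eventually_ge_atTop 3).and
        (hψ.eventually (gt_mem_nhds (by positivity))))
    obtain ⟨N, g1, ⟨g2, g3⟩, g4, g5⟩ := (hfr.and_eventually hev).exists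
    have g6 : c * (N / Real.log N) ≤ (E k θ N).ncard := hN0 N g2
    have g7 := hN1 N g3 Set.univ 0 _ rfl
    have e1 : E k θ N ∩ W Set.univ 1 0 = E k θ N := by
      ext n
      simp only [Set.mem_inter_iff, W, Set.mem_setOf_eq, Set.mem_univ, implies_true, and_true, Nat.mod_one]
    rw [e1, abs_le] at g7
    have g8 : ((E k θ N ∩ {n | s * (n : ℤ) ∈ {n | aff e i B n ∈ WanderingIntegers}}).ncard : ℝ) ≤
        ({n : ℕ | 1 ≤ n ∧ n ≤ N ∧ cardFactors n = k ∧ aff e i B (s * n) ∈ WanderingIntegers}.ncard : ℝ) := by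
      have : (E k θ N ∩ {n | s * (n : ℤ) ∈ {n | aff e i B n ∈ WanderingIntegers}}).ncard ≤
          {n : ℕ | 1 ≤ n ∧ n ≤ N ∧ cardFactors n = k ∧ aff e i B (s * n) ∈ WanderingIntegers}.ncard := by
        apply Set.ncard_le_ncard
        · rintro n ⟨⟨a1, a2, a3, -⟩, a4⟩
          exact ⟨a1, a2, a3, a4⟩
        · exact (Set.finite_Icc 1 N).subset fun n hn => ⟨hn.1, hn.2.1⟩
      exact_mod_cast this
    have g9 : (3 : ℝ) ≤ N := by exact_mod_cast g4
    have g10 : 0 < (N : ℝ) / Real.log N := div_pos (by linarith) (Real.log_pos (by linarith))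
    have g11 : ψ N * (N / Real.log N) < w / 2 * c * (N / Real.log N) := mul_lt_mul_of_pos_right g5 g10
    have g12 : w / 2 * (c * (N / Real.log N)) ≤ w / 2 * (E k θ N).ncard :=
      mul_le_mul_of_nonneg_left g6 (by linarith)
    have g13 := g7.1
    simp only at g13
    linarith
  refine ⟨w, β, ⟨hw, hw0, fun a ha => hmer a ha⟩, fun e i B => ⟨?_, ?_, hone e i B _ _ hwT hw,
    fun a p ha hp hpa => ?_, fun a ha => ⟨fun q b hq => ?_, fun η hη => ?_⟩⟩, fun k hk => ⟨fun ε hε => ?_,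
    Pool.Agent.U596.KF.E_low hk, fun e i B => ⟨⟨fun h => ?_, fun h => ?_⟩, hcrit k hk e i B⟩⟩⟩
  · refine freq_one ((together_neg hs e i B).one ?_)
    intro Q hQ
    rw [Set.mem_singleton_iff] at hQ
    rw [hQ]
    exact ⟨rfl, fun n hn => not_not.1 hn⟩
  · intro k Q hk hQ ε hε
    obtain ⟨θ0, a1, a2⟩ := hInv e i B k Q hk hQ ε hε
    refine ⟨θ0, a1, fun θ b1 b2 => ?_⟩
    obtain ⟨N0, h3⟩ := a2 θ b1 b2
    refine ⟨N0, fun N hN R r A hA => h3 N hN R r A ?_⟩
    obtain ⟨S, d, h4, h5, h6⟩ := hA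
    exact ⟨S, d, fun n => h4 n (T n) (f₀_int n), h5, h6⟩
  · have e1 : BasinIntegers a p = {n | Mer n a} := by
      ext n
      exact Pool.Agent.H723R2.LSW.basin_iff hp (cast_iter.1 hpa)
    rw [e1]
    exact hone e i B _ _ (fun n => mer_T a n) (hmerD a ha)
  · refine freq_of (PP := {P | ∃ x : ℝ, P = ((fun n : ℕ => ∃ k : ℕ, FV a (k + e) (aff e i B (s * (n : ℤ))) ∧
      (k : ℝ) ≤ bound x (s * (n : ℤ)) ∧ (k : ℤ) ≡ b [ZMOD q]), β a * Phi x / q)})
      (KFr_neg ((visits_KFr hs ha (hmerD a ha.1)).1 q b hq) (Pool.Agent.U596.KF.aff_visitE hs e i B a) ?_) ?_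
    · rintro P ⟨x, rfl⟩
      refine ⟨_, ⟨x, rfl⟩, rfl, fun n hn => ?_⟩
      rw [not_not] at hn
      refine exists_congr fun k => ?_
      rw [hn.2 k]
      exact Iff.rfl
    · rintro A ⟨x, rfl⟩
      refine ⟨x, ?_⟩
      congr 1
      funext n
      rw [eq_iff_iff]
      refine exists_congr fun k => ?_
      rw [visits_iff]
  · refine freq_one (KFr_neg ((visits_KFr hs ha (hmerD a ha.1)).2 η hη)
      (Pool.Agent.U596.KF.aff_visitE hs e i B a) ?_)
    intro P hP
    rw [Set.mem_singleton_iff] at hP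
    subst hP
    refine ⟨_, rfl, rfl, fun n hn => ?_⟩
    rw [not_not] at hn
    refine exists_congr fun k => ?_
    rw [visits_iff, log_abs hs, hn.2 k]
    exact Iff.rfl
  · classical
    obtain ⟨ϑ1, θ1, b1, b2, h1⟩ := Pool.Agent.U596.KF.coalE_unif hk hε
    obtain ⟨ϑ2, θ2, b3, b4, h2⟩ := Pool.Agent.U596.KF.coalE_most hk hε
    refine ⟨min ϑ1 ϑ2, min θ1 θ2, lt_min b1 b3, lt_min b2 b4, fun θ c1 c2 => ?_⟩
    obtain ⟨N1, h3⟩ := h1 θ c1 (c2.trans (min_le_left _ _))
    obtain ⟨N2, h4⟩ := h2 θ c1 (c2.trans (min_le_right _ _))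
    refine ⟨N1 + N2 + 1, fun N hN => ⟨fun b hb => ?_, fun L hL => ?_⟩⟩
    · have hN1 : (1 : ℝ) ≤ N := by exact_mod_cast (by omega : 1 ≤ N)
      refine le_trans ?_ (h3 N (by omega) s hs b
        (hb.trans (Real.rpow_le_rpow_of_exponent_le hN1 (min_le_left _ _))))
      have : (E k θ N ∩ {n | ¬ Together 0 (s * n) (s * n + b)}).ncard ≤
          (Pool.Agent.U596.KF.E k θ N ∩ {n | ¬ Coal s 0 b n}).ncard := by
        apply Set.ncard_le_ncard
        · rintro n ⟨g1, g2⟩
          exact ⟨g1, fun hC => g2 (coal_together hs hC)⟩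
        · exact (Pool.Agent.U596.KF.E_fin k θ N).inter_of_left _
      exact_mod_cast this
    · have hN1 : (1 : ℝ) ≤ N := by exact_mod_cast (by omega : 1 ≤ N)
      refine le_trans ?_ (h4 N (by omega) s hs L
        (hL.trans (Real.rpow_le_rpow_of_exponent_le hN1 (min_le_right _ _))))
      have : (E k θ N ∩ {n | ε * (2 * L + 1) <
            ({b : ℤ | (|b| ≤ L) ∧ ¬ Together 0 (s * n) (s * n + b)}.ncard : ℝ)}).ncard ≤
          (Pool.Agent.U596.KF.E k θ N ∩ {n | ε * (2 * L + 1) <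
            (({B ∈ Icc (-(L : ℤ)) L | ¬ Coal s 0 B n}.card : ℕ) : ℝ)}).ncard := by
        apply Set.ncard_le_ncard
        · rintro n ⟨g1, g2⟩
          refine ⟨g1, ?_⟩
          rw [Set.mem_setOf_eq] at g2 ⊢
          refine lt_of_lt_of_le g2 ?_
          have : {b : ℤ | (|b| ≤ L) ∧ ¬ Together 0 (s * n) (s * n + b)}.ncard ≤
              ({B ∈ Icc (-(L : ℤ)) L | ¬ Coal s 0 B n}).card := by
            rw [← Set.ncard_coe_finset]
            apply Set.ncard_le_ncard _ (Finset.finite_toSet _)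
            rintro b ⟨g3, g4⟩
            rw [Finset.mem_coe, mem_filter, mem_Icc]
            exact ⟨abs_le.1 g3, fun hC => g4 (coal_together hs hC)⟩
          exact_mod_cast this
        · exact (Pool.Agent.U596.KF.E_fin k θ N).inter_of_left _
      exact_mod_cast this
  · filter_upwards [eventually_gt_atTop (B.natAbs)] with n hn _
    apply h
    have hss : s * s = 1 := by rcases hs with rfl | rfl <;> rfl
    have e1 : s * aff e i B (s * n) = 2 ^ e * 3 ^ i * n + s * B := by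
      unfold aff
      have : s * (2 ^ e * 3 ^ i * (s * (n : ℤ)) + B) = 2 ^ e * 3 ^ i * (s * s) * n + s * B := by ring
      rw [this, hss, mul_one]
    rw [e1]
    have h1 : (n : ℤ) ≤ 2 ^ e * 3 ^ i * n := by
      have h2 : (1 : ℤ) ≤ 2 ^ e * 3 ^ i := one_le_mul_of_one_le_of_one_le
        (one_le_pow₀ (by norm_num)) (one_le_pow₀ (by norm_num))
      have h3 : (0 : ℤ) ≤ n := Int.natCast_nonneg n
      nlinarith
    have h2 : -(B.natAbs : ℤ) ≤ s * B := by rcases hs with rfl | rfl <;> omega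
    omega
  · obtain ⟨n0, hn0⟩ := eventually_atTop.1 h
    apply hcrit k hk e i B (fun N => n0 * (Real.log N / N))
    · have h1 : Tendsto (fun x : ℝ => Real.log x / x) atTop (𝓝 0) := by
        have := (isLittleO_log_rpow_atTop (r := 1) (by norm_num)).tendsto_div_nhds_zero
        simpa using this
      have h2 := (h1.comp tendsto_natCast_atTop_atTop).const_mul (n0 : ℝ)
      rw [mul_zero] at h2
      exact h2
    · apply Eventually.frequently
      filter_upwards [eventually_ge_atTop 3] with N hN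
      have hNp : (0 : ℝ) < N := by exact_mod_cast (by omega : 0 < N)
      have hl : 0 < Real.log N := Real.log_pos (by exact_mod_cast (by omega : 1 < N))
      have e1 : (n0 : ℝ) * (Real.log N / N) * (N / Real.log N) = n0 := by field_simp
      rw [e1]
      have : {n : ℕ | 1 ≤ n ∧ n ≤ N ∧ cardFactors n = k ∧ aff e i B (s * n) ∈ WanderingIntegers}.ncard ≤ n0 := by
        have h2 : {n : ℕ | 1 ≤ n ∧ n ≤ N ∧ cardFactors n = k ∧ aff e i B (s * n) ∈ WanderingIntegers} ⊆
            ((range n0 : Finset ℕ) : Set ℕ) := by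
          rintro n ⟨-, -, h3, h4⟩
          rw [Finset.mem_coe, mem_range]
          by_contra hcon
          exact hn0 n (by omega) h3 h4
        have h3 := Set.ncard_le_ncard h2 (Finset.finite_toSet _)
        rwa [Set.ncard_coe_finset, card_range] at h3
      exact_mod_cast this

end Pool.Agent.Results.MP_071ec9_an.NeighboursExactlyKPrimes
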