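import Pool.Agent.H723R2.LSWBase
import Pool.Agent.U457.PS.Inv

set_option autoImplicit false

/-!
Absolute continuity, at all scales and with any power of the logarithm, of the first entrances of the
integer orbits of the entire function `f₀` into the discs `|z| < Y`, and rigidity of the forward
invariant families of Fatou components: few integers at one scale force few integers at all larger
scales.
-/

open Filter Topology

namespace Pool.Agent.Results.MP_071ec9_an.RigidityOfInvariantFamilies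

open Pool.Agent.H384R2.Fatou
open Pool.Agent.U457.PS
open Pool.Agent.H499R2.CO (Tz)

/-- The entire function of Letherman, Schleicher and Wood; `f₀ n = T n` for every integer `n`, where
`T` is the `3x+1` function. -/
noncomputable def f₀ (z : ℂ) : ℂ :=
  z / 2 + (z + 1 / 2) * ((1 - Complex.cos (Real.pi * z)) / 2) +
    1 / Real.pi * (1 / 2 - Complex.cos (Real.pi * z)) * Complex.sin (Real.pi * z)

/-- the number of integers `n` of `S` with `|n| ≤ X` -/
noncomputable def N (S : Set ℤ) (X : ℝ) : ℝ := ({n : ℤ | n ∈ S ∧ |(n : ℝ)| ≤ X}.ncard : ℝ)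

/-- the integers `n`, `|n| ≥ Y`, whose `f₀`-orbit enters the disc `|z| < Y`, and enters it for the first
time at a point of `E` -/
def FirstIn (E : Set ℤ) (Y : ℝ) : Set ℤ :=
  {n | ∃ k : ℕ, 1 ≤ k ∧ (∀ j < k, Y ≤ ‖f₀^[j] (n : ℂ)‖) ∧ ‖f₀^[k] (n : ℂ)‖ < Y ∧
    ∃ m ∈ E, f₀^[k] (n : ℂ) = (m : ℂ)}

/-- a family of Fatou components of `f₀` which is forward invariant: with each member `U` it contains
the component into which `f₀` maps `U` -/
def ForwardInvariant (F : Set (Set ℂ)) : Prop :=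
  (∀ U ∈ F, ∃ z ∈ FatouSet f₀, U = FatouComponent f₀ z) ∧ ∀ U ∈ F, ∃ V ∈ F, f₀ '' U ⊆ V

/-- the integers which lie in the members of a family -/
def Ints (F : Set (Set ℂ)) : Set ℤ := {n | ∃ U ∈ F, (n : ℂ) ∈ U}

/-- the integers whose `f₀`-orbit never meets `G` -/
def Avoid (G : Set ℂ) : Set ℤ := {n | ∀ k : ℕ, f₀^[k] (n : ℂ) ∉ G}

theorem f_int (x : ℤ) : f₀ (x : ℂ) = ((Tz 1 x : ℤ) : ℂ) :=
  Pool.Agent.H723R2.LSW.f₀_int x

theorem f_iter (k : ℕ) (x : ℤ) : f₀^[k] (x : ℂ) = (((Tz 1)^[k] x : ℤ) : ℂ) :=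
  Pool.Agent.H723R2.LSW.f₀_iter x k

theorem N_eq (S : Set ℤ) (X : ℝ) : N S X = ({x : ℤ | |(x : ℝ)| ≤ X ∧ x ∈ S}.ncard : ℝ) := by
  unfold N
  congr 2
  ext x
  exact and_comm

theorem nb_le_N (S : Set ℤ) (Y : ℝ) : nb S Y ≤ N S Y := by
  rw [N_eq]
  unfold nb
  have : {y : ℤ | y ∈ S ∧ |(y : ℝ)| < Y} ⊆ {x : ℤ | |(x : ℝ)| ≤ Y ∧ x ∈ S} := by
    rintro x ⟨h1, h2⟩
    exact ⟨h2.le, h1⟩
  exact_mod_cast Set.ncard_le_ncard this (fin_abs Y _)

theorem N_nonneg (S : Set ℤ) (X : ℝ) : 0 ≤ N S X := Nat.cast_nonneg _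

theorem lg_le (B : ℕ) (S : Set ℤ) {Y : ℝ} (hY : 1 ≤ Y) {C X : ℝ} (hC : 0 < C) (hX : 0 < X) :
    C * X / (lg S Y) ^ B ≤ C * X / (Real.log (2 + Y / (1 + N S Y))) ^ B := by
  have hY0 : 0 < Y := by linarith
  have h1 := nb_le_N S Y
  have h2 := nb_nonneg S Y
  have h0 : 0 < Y / (1 + N S Y) := by
    have := N_nonneg S Y
    positivity
  have h3 : 0 < Real.log (2 + Y / (1 + N S Y)) := Real.log_pos (by linarith)
  apply div_le_div_of_nonneg_left (by positivity) (by positivity)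
  apply pow_le_pow_left₀ h3.le
  unfold lg
  apply Real.log_le_log (by linarith)
  have : Y / (1 + N S Y) ≤ Y / (1 + nb S Y) :=
    div_le_div_of_nonneg_left hY0.le (by linarith) (by linarith)
  linarith

theorem norm_iter (k : ℕ) (n : ℤ) : ‖f₀^[k] (n : ℂ)‖ = |(((Tz 1)^[k] n : ℤ) : ℝ)| := by
  rw [f_iter, Complex.norm_intCast]

theorem FirstIn_sub (E : Set ℤ) {Y : ℝ} {n : ℤ} (h : n ∈ FirstIn E Y) : n ∈ SZk 1 Y E := by
  obtain ⟨k, h1, h2, h3, m, hm, h4⟩ := h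
  rw [mem_SZk]
  have h5 := h2 0 (by omega)
  rw [norm_iter] at h5
  refine ⟨h5, k, ?_, ?_, ?_⟩
  · intro j hj
    rw [← norm_iter]; exact h2 j hj
  · rw [← norm_iter]; exact h3
  · rw [f_iter] at h4
    have : (Tz 1)^[k] n = m := by exact_mod_cast h4
    rw [this]; exact hm

theorem Ints_fwd {F : Set (Set ℂ)} (hF : ForwardInvariant F) : ∀ x ∈ Ints F, Tz 1 x ∈ Ints F := by
  rintro x ⟨U, hU, hx⟩
  obtain ⟨V, hV, hUV⟩ := hF.2 U hU
  exact ⟨V, hV, by rw [← f_int]; exact hUV ⟨_, hx, rfl⟩⟩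

theorem Avoid_fwd (G : Set ℂ) : ∀ x ∈ Avoid G, Tz 1 x ∈ Avoid G := by
  intro x hx k
  have := hx (k + 1)
  rw [Function.iterate_succ_apply, f_int] at this
  exact this

/-- For every `B` there is `C` such that:
(1) for all sets `E` of integers and all `1 ≤ Y ≤ X`: at most `C X / (log (2 + Y / (1 + N(E, Y))))^B`
integers `n`, `|n| ≤ X`, have an `f₀`-orbit which enters the disc `|z| < Y` for the first time in `E`;
(2) for all forward invariant families `F` of Fatou components of `f₀`, if `S` is the set of the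
integers in the members of `F`, then `N(S, X) ≤ C X / (log (2 + Y / (1 + N(S, Y))))^B` for all
`1 ≤ Y ≤ X`; and if `N(S, Y) ≤ δ Y` for arbitrarily large `Y` then `N(S, X) ≤ C X / (log (2 + 1/δ))^B`
for all large `X`;
(3) the same for the set `S` of the integers whose `f₀`-orbit never meets `G`, `G` any set of complex
numbers. -/
theorem result (B : ℕ) : ∃ C : ℝ, 0 < C ∧
    (∀ (E : Set ℤ) (Y X : ℝ), 1 ≤ Y → Y ≤ X →
      N (FirstIn E Y) X ≤ C * X / (Real.log (2 + Y / (1 + N E Y))) ^ B) ∧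
    (∀ F : Set (Set ℂ), ForwardInvariant F →
      (∀ Y X : ℝ, 1 ≤ Y → Y ≤ X →
        N (Ints F) X ≤ C * X / (Real.log (2 + Y / (1 + N (Ints F) Y))) ^ B) ∧
      ∀ δ : ℝ, 0 < δ → (∃ᶠ Y : ℝ in atTop, N (Ints F) Y ≤ δ * Y) →
        ∀ᶠ X : ℝ in atTop, N (Ints F) X ≤ C * X / (Real.log (2 + 1 / δ)) ^ B) ∧
    (∀ G : Set ℂ,
      (∀ Y X : ℝ, 1 ≤ Y → Y ≤ X →
        N (Avoid G) X ≤ C * X / (Real.log (2 + Y / (1 + N (Avoid G) Y))) ^ B) ∧
      ∀ δ : ℝ, 0 < δ → (∃ᶠ Y : ℝ in atTop, N (Avoid G) Y ≤ δ * Y) →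
        ∀ᶠ X : ℝ in atTop, N (Avoid G) X ≤ C * X / (Real.log (2 + 1 / δ)) ^ B) := by
  have h13 : IsCoprime (1 : ℤ) 3 := isCoprime_one_left
  obtain ⟨C₁, hC₁, h1⟩ := ac_all' odd_one h13 B
  obtain ⟨C₂, hC₂, h2⟩ := inv_set odd_one h13 B
  obtain ⟨C₃, hC₃, h3⟩ := inv_asym odd_one h13 B
  have hinv : ∀ S : Set ℤ, (∀ x ∈ S, Tz 1 x ∈ S) →
      (∀ Y X : ℝ, 1 ≤ Y → Y ≤ X →
        N S X ≤ (C₁ + C₂ + C₃) * X / (Real.log (2 + Y / (1 + N S Y))) ^ B) ∧
      ∀ δ : ℝ, 0 < δ → (∃ᶠ Y : ℝ in atTop, N S Y ≤ δ * Y) →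
        ∀ᶠ X : ℝ in atTop, N S X ≤ (C₁ + C₂ + C₃) * X / (Real.log (2 + 1 / δ)) ^ B := by
    intro S hS
    constructor
    · intro Y X hY hYX
      have hX0 : 0 < X := by linarith
      rw [N_eq S X]
      refine (h2 S hS Y X hY hYX).trans (le_trans ?_ (lg_le B S hY (by positivity) hX0))
      have := lg_pos S (show 0 ≤ Y by linarith)
      apply div_le_div_of_nonneg_right _ (by positivity)
      nlinarith
    · intro δ hδ hfr
      have hfr' : ∃ᶠ Y : ℝ in atTop, nb S Y ≤ δ * Y :=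
        hfr.mono (fun Y hY => (nb_le_N S Y).trans hY)
      filter_upwards [h3 S hS δ hδ hfr', eventually_gt_atTop 0] with X hX hX0
      rw [N_eq]
      refine hX.trans ?_
      have : 0 < 1 / δ := by positivity
      have : 0 < Real.log (2 + 1 / δ) := Real.log_pos (by linarith)
      apply div_le_div_of_nonneg_right _ (by positivity)
      nlinarith
  refine ⟨C₁ + C₂ + C₃, by positivity, ?_, ?_, ?_⟩
  · intro E Y X hY hYX
    have hX0 : 0 < X := by linarith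
    have hsub : {x : ℤ | |(x : ℝ)| ≤ X ∧ x ∈ FirstIn E Y} ⊆ {x : ℤ | |(x : ℝ)| ≤ X ∧ x ∈ SZk 1 Y E} := by
      rintro x ⟨hx1, hx2⟩
      exact ⟨hx1, FirstIn_sub E hx2⟩
    rw [N_eq (FirstIn E Y) X]
    refine le_trans (by exact_mod_cast Set.ncard_le_ncard hsub (fin_abs X _))
      ((h1 Y (by linarith) E X (hY.trans hYX)).trans
        (le_trans ?_ (lg_le B E hY (C := C₁ + C₂ + C₃) (by positivity) hX0)))
    have := lg_pos E (show 0 ≤ Y by linarith)
    apply div_le_div_of_nonneg_right _ (by positivity)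
    nlinarith
  · intro F hF
    exact hinv _ (Ints_fwd hF)
  · intro G
    exact hinv _ (Avoid_fwd G)

end Pool.Agent.Results.MP_071ec9_an.RigidityOfInvariantFamilies
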